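import Mathlib
import Pool.Agent.H30.QExt

namespace Pool.Agent.Results.MP_377342_al.Extend

open Matrix MulOpposite Pool.Agent.H30

/-- Square quaternion matrices. -/
abbrev Mat (n : ℕ) := Matrix (Fin n) (Fin n) (Quaternion ℝ)

/-- Right quaternion subspaces of the column space. -/
abbrev Sub (n : ℕ) := Submodule (Quaternion ℝ)ᵐᵒᵖ (Fin n → Quaternion ℝ)

variable {n : ℕ}

/-- `M` is `A`-invariant. -/
def Invar (A : Mat n) (M : Sub n) : Prop := ∀ x ∈ M, A *ᵥ x ∈ M

/-- `x^* G y`. -/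
noncomputable def form (G : Mat n) (x y : Fin n → Quaternion ℝ) : Quaternion ℝ := star x ⬝ᵥ G *ᵥ y

def Neutral (G : Mat n) (M : Sub n) : Prop := ∀ x ∈ M, ∀ y ∈ M, form G x y = 0

/-- `x^* G x ≥ 0` on `M` (this number is real for hermitian `G`). -/
def Nonneg (G : Mat n) (M : Sub n) : Prop := ∀ x ∈ M, 0 ≤ (form G x x).re

/-- `x^* G x ≤ 0` on `M`. -/
def Nonpos (G : Mat n) (M : Sub n) : Prop := ∀ x ∈ M, (form G x x).re ≤ 0

/-- Q1: invariant `HA`-neutral subspaces extend to invariant maximal semidefinite ones. -/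
theorem result (n : ℕ) (H A : Mat n) (_hu : IsUnit H) (hH : Hᴴ = -H) (hA : H * A = -(Aᴴ * H))
    (N : Sub n) (hN : Invar A N) (h0 : Neutral (H * A) N) :
    (∃ L : Sub n, N ≤ L ∧ Invar A L ∧ Maximal (Nonneg (H * A)) L) ∧
    ∃ L : Sub n, N ≤ L ∧ Invar A L ∧ Maximal (Nonpos (H * A)) L := by
  have g := QExt.good hH hA
  have z : ∀ x ∈ N, QExt.bf (H * A) x x = 0 := fun x hx => congrArg QuaternionAlgebra.re (h0 x hx x hx)
  refine ⟨QExt.thmA g N hN fun x hx => (z x hx).ge, ?_⟩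
  have := QExt.thmA g.neg N hN fun x hx => by simp [z x hx]
  simp only [LinearMap.neg_apply, Left.nonneg_neg_iff] at this
  exact this

end Pool.Agent.Results.MP_377342_al.Extend
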