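import Mathlib
import Pool.Agent.H30.QExt

namespace Pool.Agent.Results.MP_377342_al.Spectrum

open Matrix MulOpposite Pool.Agent.H30

/-- Square quaternion matrices. -/
abbrev Mat (n : ℕ) := Matrix (Fin n) (Fin n) (Quaternion ℝ)

/-- Right quaternion subspaces of the column space. -/
abbrev Sub (n : ℕ) := Submodule (Quaternion ℝ)ᵐᵒᵖ (Fin n → Quaternion ℝ)

variable {n : ℕ}

/-- `M` is `A`-invariant. -/
def Invar (A : Mat n) (M : Sub n) : Prop := ∀ x ∈ M, A *ᵥ x ∈ M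

/-- `l` is an eigenvalue of the restriction of `A` to `M`: `A x = x l` with `0 ≠ x ∈ M`. -/
def Eig (A : Mat n) (M : Sub n) (l : Quaternion ℝ) : Prop :=
  ∃ x ∈ M, x ≠ 0 ∧ A *ᵥ x = fun i => x i * l

/-- c-sets of `A`. -/
def CSet (A : Mat n) (S : Set (Quaternion ℝ)) : Prop :=
  Maximal (fun T : Set (Quaternion ℝ) => (∀ l ∈ T, Eig A ⊤ l) ∧ (∀ l ∈ T, l.re ≠ 0) ∧
    (∀ l ∈ T, ∀ q : Quaternion ℝ, q ≠ 0 → q⁻¹ * l * q ∈ T) ∧ ∀ l ∈ T, -l ∉ T) S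

/-- `x^* G y`. -/
noncomputable def form (G : Mat n) (x y : Fin n → Quaternion ℝ) : Quaternion ℝ := star x ⬝ᵥ G *ᵥ y

def Neutral (G : Mat n) (M : Sub n) : Prop := ∀ x ∈ M, ∀ y ∈ M, form G x y = 0

/-- `x^* G x ≥ 0` on `M` (this number is real for hermitian `G`). -/
def Nonneg (G : Mat n) (M : Sub n) : Prop := ∀ x ∈ M, 0 ≤ (form G x x).re

/-- `x^* G x ≤ 0` on `M`. -/
def Nonpos (G : Mat n) (M : Sub n) : Prop := ∀ x ∈ M, (form G x x).re ≤ 0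

lemma cs {A : Mat n} {S : Set (Quaternion ℝ)} (h : CSet A S) :
    Maximal (fun T : Set QExt.Q => (∀ l ∈ T, ∃ x, x ≠ 0 ∧ QExt.la A x = op l • x) ∧
      (∀ l ∈ T, l.re ≠ 0) ∧ (∀ l ∈ T, ∀ q : QExt.Q, q ≠ 0 → q⁻¹ * l * q ∈ T) ∧
      ∀ l ∈ T, -l ∉ T) S := by
  simp only [CSet, Eig, Submodule.mem_top, true_and] at h
  exact h

/-- Q2: the extensions can be chosen with prescribed c-set as spectrum off the imaginary part. -/
theorem result (n : ℕ) (H A : Mat n) (hu : IsUnit H) (hH : Hᴴ = -H) (hA : H * A = -(Aᴴ * H))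
    (N : Sub n) (hN : Invar A N) (h0 : Neutral (H * A) N) (S : Set (Quaternion ℝ)) (hS : CSet A S)
    (hNS : ∀ l, l.re ≠ 0 → Eig A N l → l ∈ S) :
    (∃ L : Sub n, N ≤ L ∧ Invar A L ∧ Maximal (Nonneg (H * A)) L ∧
      S = {l | l.re ≠ 0 ∧ Eig A L l}) ∧
    ∃ L : Sub n, N ≤ L ∧ Invar A L ∧ Maximal (Nonpos (H * A)) L ∧
      S = {l | l.re ≠ 0 ∧ Eig A L l} := by
  have g := QExt.good hH hA
  have z : ∀ x ∈ N, ∀ y ∈ N, QExt.bf (H * A) x y = 0 := fun x hx y hy =>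
    congrArg QuaternionAlgebra.re (h0 x hx y hy)
  have r := QExt.rad hu hH hA
  have e : ∀ x ∈ N, x ≠ 0 → ∀ l : QExt.Q, QExt.la A x = op l • x → l.re ≠ 0 → l ∈ S :=
    fun x hx h l hl hr => hNS l hr ⟨x, hx, h, hl⟩
  obtain ⟨L, a1, a2, a3, a4⟩ := QExt.thmB g r S (cs hS) N hN z e
  obtain ⟨L', b1, b2, b3, b4⟩ := QExt.thmB g.neg (fun x h => r x fun y => by simpa using h y) S
    (cs hS) N hN (fun x hx y hy => by simp [z x hx y hy]) e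
  simp only [LinearMap.neg_apply, Left.nonneg_neg_iff] at b3
  exact ⟨⟨L, a1, a2, a3, Set.ext a4⟩, L', b1, b2, b3, Set.ext b4⟩

end Pool.Agent.Results.MP_377342_al.Spectrum
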